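import Pool.Agent.Lib.MP_75b31c_lc.N40.Iface

set_option autoImplicit false

/-!
# CMPC and PAD: composition of string functionals, padding
-/

namespace Pool.Agent.Lib.MP_75b31c_lc.N40.H12

open MeasureTheory Filter
open Pool.Agent.Lib.MP_75b31c_lc.N40
open Pool.Agent.Lib.MP_75b31c_lc.H40 (chi coin coinPi shift pre pre_length pre_take)

theorem pre_getElem? (z : ℕ → Bool) (t i : ℕ) :
    (pre z t)[i]? = if i < t then some (z i) else none := by
  split_ifs with h
  · unfold pre
    rw [List.getElem?_map, List.getElem?_range h]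
    rfl
  · rw [List.getElem?_eq_none]
    rw [pre_length]
    omega

theorem pre_prefix (z : ℕ → Bool) {t u : ℕ} (h : t ≤ u) : pre z t <+: pre z u := by
  rw [← pre_take z h]
  exact List.take_prefix _ _

/-- CMPC: composition. -/
theorem cmpc (hT : TUR_S) : CMPC_S := by
  refine ⟨?_, ?_, ?_, ?_⟩
  · intro φ φ' h h'
    exact ⟨fun ρ ρ' hρ => h'.mono _ _ (h.mono _ _ hρ), h'.comp.comp h.comp⟩
  · intro φ φ' z y x h h' hc hc'
    refine ⟨fun t => ?_, fun n => ?_⟩
    · have h1 := hc'.1 (φ (pre z t)).length
      rw [← hc.1 t] at h1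
      exact h1
    · obtain ⟨t', ht'⟩ := hc'.2 n
      obtain ⟨t, ht⟩ := hc.2 t'
      refine ⟨t, ?_⟩
      have h1 : φ' (pre y t') <+: φ' (φ (pre z t)) := by
        rw [hc.1 t]
        exact h'.mono _ _ (pre_prefix y ht)
      exact ht'.trans h1.length_le
  · intro φ G z y b h hc hG
    refine ⟨fun t c ht => ?_, ?_⟩
    · dsimp only at ht
      rw [hc.1 t] at ht
      exact hG.1 _ c ht
    · obtain ⟨T, hT'⟩ := eventually_atTop.1 hG.2
      obtain ⟨t0, ht0⟩ := hc.2 T
      refine eventually_atTop.2 ⟨t0, fun t ht => ?_⟩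
      dsimp only
      rw [hc.1 t]
      refine hT' _ (ht0.trans ?_)
      exact (h.mono _ _ (pre_prefix z ht)).length_le
  · intro φ z y h hc
    refine hT (fun ρ n => (φ ρ)[n]?) ?_ z y 0 (fun n _ => ⟨fun t c ht => ?_, ?_⟩)
    · exact Primrec.list_getElem?.to_comp.comp (h.comp.comp Computable.fst) Computable.snd
    · rw [hc.1 t, pre_getElem?] at ht
      split_ifs at ht with hlt
      exact (Option.some.inj ht).symm
    · obtain ⟨t, ht⟩ := hc.2 (n + 1)
      refine ⟨t, ?_⟩
      rw [hc.1 t, pre_getElem?, if_pos (by omega)]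

theorem pad_of_gt (n : ℕ) (z : ℕ → Bool) (i : ℕ) : pad n z (i + n + 1) = z i := by
  unfold pad
  rw [if_neg (by omega), if_neg (by omega)]
  congr 1
  omega

/-- PAD: padding. -/
theorem padThm (hT : TUR_S) : PAD_S := by
  refine ⟨fun n z => ⟨?_, ?_⟩, ?_, ?_⟩
  · refine hT (fun ρ i => ρ[i - (n + 1)]?) ?_ z (pad n z) (n + 1) (fun i hi => ⟨fun t c ht => ?_, ?_⟩)
    · exact Primrec.list_getElem?.to_comp.comp Computable.fst
        ((Primrec.nat_sub.comp Primrec.id (Primrec.const (n + 1))).to_comp.comp Computable.snd)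
    · rw [pre_getElem?] at ht
      split_ifs at ht with hlt
      obtain ⟨j, rfl⟩ : ∃ j, i = j + n + 1 := ⟨i - (n + 1), by omega⟩
      rw [pad_of_gt]
      rw [← Option.some.inj ht]
      congr 1
      omega
    · obtain ⟨j, rfl⟩ : ∃ j, i = j + n + 1 := ⟨i - (n + 1), by omega⟩
      refine ⟨j + 1, ?_⟩
      rw [pre_getElem?, if_pos (by omega), pad_of_gt]
      congr 2
      omega
  · refine hT (fun ρ i => ρ[i + n + 1]?) ?_ (pad n z) z 0 (fun i _ => ⟨fun t c ht => ?_, ?_⟩)
    · refine Primrec.list_getElem?.to_comp.comp Computable.fst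
        (Computable.comp (f := fun i : ℕ => i + n + 1) ?_ Computable.snd)
      exact (Primrec.nat_add.comp (Primrec.nat_add.comp Primrec.id (Primrec.const n))
        (Primrec.const 1)).to_comp
    · rw [pre_getElem?] at ht
      split_ifs at ht with hlt
      rw [← Option.some.inj ht, pad_of_gt]
    · refine ⟨i + n + 2, ?_⟩
      rw [pre_getElem?, if_pos (by omega), pad_of_gt]
  · have key : ∀ n n' z z', n < n' → pad n z ≠ pad n' z' := by
      intro n n' z z' h he
      have h1 := congrFun he n
      unfold pad at h1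
      rw [if_neg (by omega), if_pos rfl, if_pos h] at h1
      exact absurd h1 (by decide)
    intro n n' z z' he
    have hn : n = n' := by
      rcases lt_trichotomy n n' with h | h | h
      · exact absurd he (key _ _ _ _ h)
      · exact h
      · exact absurd he.symm (key _ _ _ _ h)
    subst hn
    refine ⟨rfl, ?_⟩
    funext i
    have h1 := congrFun he (i + n + 1)
    rwa [pad_of_gt, pad_of_gt] at h1
  · refine measurable_from_prod_countable_right fun n => ?_
    refine measurable_pi_lambda _ fun i => ?_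
    show Measurable fun z : ℕ → Bool => pad n z i
    unfold pad
    split_ifs
    · exact measurable_const
    · exact measurable_const
    · exact measurable_pi_apply _

end Pool.Agent.Lib.MP_75b31c_lc.N40.H12
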