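import Pool.Agent.Lib.MP_75b31c_lc.N40.Iface

set_option autoImplicit false

/-!
# XORM and CON: the concrete dynamical setting
-/

namespace Pool.Agent.Lib.MP_75b31c_lc.N40.H12

open MeasureTheory Filter
open Pool.Agent.Lib.MP_75b31c_lc.N40
open Pool.Agent.Lib.MP_75b31c_lc.H40 (coin coinPi shift)
open Pool.Agent.Lib.MP_75b31c_lc.H74 (measurePreserving_shift)

theorem coin_xor (c : Bool) (t : Set Bool) : coin {b | xor b c ∈ t} = coin t := by
  have hm : ∀ s : Set Bool, MeasurableSet s := fun s => s.to_countable.measurableSet
  cases c
  · have h : {b : Bool | xor b false ∈ t} = t := by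
      ext b
      cases b <;> rfl
    rw [h]
  · unfold coin
    simp only [Measure.coe_add, Measure.coe_smul, Pi.add_apply, Pi.smul_apply,
      Measure.dirac_apply' _ (hm _), smul_eq_mul]
    have e1 : (true ∈ {b : Bool | xor b true ∈ t}) ↔ false ∈ t := Iff.rfl
    have e2 : (false ∈ {b : Bool | xor b true ∈ t}) ↔ true ∈ t := Iff.rfl
    rw [add_comm]
    by_cases h1 : true ∈ t
    · by_cases h2 : false ∈ t
      · rw [Set.indicator_of_mem (e1.2 h2), Set.indicator_of_mem (e2.2 h1),
          Set.indicator_of_mem h1, Set.indicator_of_mem h2]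
        rfl
      · rw [Set.indicator_of_notMem (fun h => h2 (e1.1 h)), Set.indicator_of_mem (e2.2 h1),
          Set.indicator_of_mem h1, Set.indicator_of_notMem h2]
        rfl
    · by_cases h2 : false ∈ t
      · rw [Set.indicator_of_mem (e1.2 h2), Set.indicator_of_notMem (fun h => h1 (e2.1 h)),
          Set.indicator_of_notMem h1, Set.indicator_of_mem h2]
        rfl
      · rw [Set.indicator_of_notMem (fun h => h2 (e1.1 h)),
          Set.indicator_of_notMem (fun h => h1 (e2.1 h)),
          Set.indicator_of_notMem h1, Set.indicator_of_notMem h2]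

/-- XORM: `x ↦ x xor c` preserves the coin tossing measure. -/
theorem xorm : XORM_S := by
  classical
  intro Γ c
  have hmeas : Measurable (fun (x : Γ → Bool) (g : Γ) => xor (x g) (c g)) :=
    measurable_pi_lambda _ fun g =>
      (measurable_of_countable (fun b : Bool => xor b (c g))).comp (measurable_pi_apply g)
  refine ⟨hmeas, ?_⟩
  unfold coinPi
  refine Measure.eq_infinitePi (μ := fun _ : Γ => coin) fun s t ht => ?_
  have hms : MeasurableSet (Set.pi (s : Set Γ) t) :=
    MeasurableSet.pi (Set.countable_coe_iff.mp (by infer_instance)) fun i _ => ht i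
  rw [Measure.map_apply hmeas hms]
  have e : (fun (x : Γ → Bool) (g : Γ) => xor (x g) (c g)) ⁻¹' Set.pi (s : Set Γ) t =
      Set.pi (s : Set Γ) fun g => {b | xor b (c g) ∈ t g} := by
    ext x
    simp [Set.mem_pi]
  rw [e, Measure.infinitePi_pi _ fun i _ => (Set.to_countable _).measurableSet]
  exact Finset.prod_congr rfl fun g _ => coin_xor (c g) (t g)

theorem lift_tj_injective :
    Function.Injective (FreeGroup.lift tj : FreeGroup ℕ →* Gam) := by
  have h : (MonoidHom.fst (FreeGroup ℕ) (Multiplicative ℤ)).comp (FreeGroup.lift tj) =
      MonoidHom.id _ := by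
    ext j
    simp [tj]
  intro x y hxy
  have h1 := DFunLike.congr_fun h x
  have h2 := DFunLike.congr_fun h y
  simp only [MonoidHom.comp_apply, MonoidHom.id_apply] at h1 h2
  rw [← h1, ← h2, hxy]

/-- CON: the concrete dynamical setting. -/
theorem con : CON_S := by
  intro hV hX p
  refine ⟨{ t := fun j => shift (tj j)
            ti := fun j => shift (tj j)⁻¹
            a := shift aa
            ai := shift aa⁻¹
            w := flip0 p
            mt := fun j => measurePreserving_shift _
            mti := fun j => measurePreserving_shift _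
            ma := measurePreserving_shift _
            mai := measurePreserving_shift _
            mw := fun n => hX Gam (fun g => ext0 p (Multiplicative.toAdd g.2 + n))
            ti_t := fun j x => (shiftP (tj j)).left_inv x
            w_succ := ?_
            comm := ?_
            var := fun B hB θ hθ => hV Gam tj lift_tj_injective B hB NN (by norm_num [NN]) θ hθ },
    rfl, rfl, rfl, rfl, rfl, ?_⟩
  · intro n x
    funext g
    simp only [flip0, shift, inv_inv, inv_mul_cancel_left]
    congr 2
    simp only [aa, Prod.snd_mul, toAdd_mul, toAdd_ofAdd]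
    push_cast
    ring
  · intro n j x
    funext g
    simp only [flip0, shift]
    congr 2
    simp [tj]
  · intro n x
    simp [bit1, flip0, ext0]

end Pool.Agent.Lib.MP_75b31c_lc.N40.H12
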