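import Pool.Agent.Lib.MP_75b31c_lc.N40.Iface

set_option autoImplicit false

/-!
# MARK: the Markov inequality for counts
-/

namespace Pool.Agent.Lib.MP_75b31c_lc.N40.H12

open MeasureTheory Filter
open Pool.Agent.Lib.MP_75b31c_lc.N40

theorem cnt_eq_sum {X : Type} (B : ℕ → Set X) (N : ℕ) (x : X) :
    (cnt N (fun j => x ∈ B j) : ℝ) = ∑ j ∈ Finset.range N, (B j).indicator (fun _ => (1 : ℝ)) x := by
  classical
  unfold cnt
  rw [Finset.card_filter, Nat.cast_sum]
  refine Finset.sum_congr rfl fun j _ => ?_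
  by_cases h : x ∈ B j
  · simp [h]
  · simp [h]

theorem measurable_cnt {X : Type} [MeasurableSpace X] (B : ℕ → Set X)
    (hB : ∀ j, MeasurableSet (B j)) (N : ℕ) :
    Measurable (fun x => (cnt N (fun j => x ∈ B j) : ℝ)) := by
  have h : (fun x => (cnt N (fun j => x ∈ B j) : ℝ)) = fun x =>
      ∑ j ∈ Finset.range N, (B j).indicator (fun _ => (1 : ℝ)) x := by
    funext x
    exact cnt_eq_sum B N x
  rw [h]
  exact Finset.measurable_sum _ fun j _ => measurable_const.indicator (hB j)

/-- MARK: the Markov inequality for counts. -/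
theorem mark : MARK_S := by
  intro X _ μ _ B hB ε hε θ hθ
  have hm := measurable_cnt B hB NN
  refine ⟨?_, measurableSet_le measurable_const hm⟩
  have hNN : (0 : ℝ) < NN := by norm_num [NN]
  have hint : ∀ j, Integrable ((B j).indicator (fun _ => (1 : ℝ))) μ := fun j =>
    (integrable_const (1 : ℝ)).indicator (hB j)
  have h1 := mul_meas_ge_le_integral_of_nonneg (μ := μ)
    (f := fun x => (cnt NN (fun j => x ∈ B j) : ℝ)) (Filter.Eventually.of_forall fun x => Nat.cast_nonneg _)
    (by
      have h : (fun x => (cnt NN (fun j => x ∈ B j) : ℝ)) = fun x =>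
          ∑ j ∈ Finset.range NN, (B j).indicator (fun _ => (1 : ℝ)) x := by
        funext x
        exact cnt_eq_sum B NN x
      rw [h]
      exact integrable_finsetSum _ fun j _ => hint j) (θ * NN)
  have h2 : ∫ x, (cnt NN (fun j => x ∈ B j) : ℝ) ∂μ ≤ NN * ε := by
    have h : (fun x => (cnt NN (fun j => x ∈ B j) : ℝ)) = fun x =>
        ∑ j ∈ Finset.range NN, (B j).indicator (fun _ => (1 : ℝ)) x := by
      funext x
      exact cnt_eq_sum B NN x
    rw [h, integral_finsetSum _ fun j _ => hint j]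
    have h3 : ∀ j ∈ Finset.range NN, ∫ x, (B j).indicator (fun _ => (1 : ℝ)) x ∂μ ≤ ε := by
      intro j hj
      rw [integral_indicator_const _ (hB j)]
      simpa using hε j (Finset.mem_range.mp hj)
    refine (Finset.sum_le_sum h3).trans ?_
    simp
  rw [le_div_iff₀ hθ]
  have h4 : θ * NN * μ.real {x | θ * NN ≤ (cnt NN (fun j => x ∈ B j) : ℝ)} ≤ NN * ε := h1.trans h2
  have h5 : NN * (μ.real {x | θ * NN ≤ (cnt NN (fun j => x ∈ B j) : ℝ)} * θ) ≤ NN * ε := by
    linarith [h4]
  exact le_of_mul_le_mul_left h5 hNN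

end Pool.Agent.Lib.MP_75b31c_lc.N40.H12
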